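import Pool.Agent.MVO.StmtsL

/-!
# Squad MVO, row LWA (helper87): the one letter law over `O1`, and in degree 2
-/

set_option autoImplicit false

namespace Pool.Agent.MVO.H87

open Pool.Agent.MVO Finset

theorem mem_sp {k : ℕ} {a : ℕ → ℕ} {j : ℕ} : j ∈ sp k a ↔ j ≤ k ∧ a j ≠ 0 := by
  unfold sp
  rw [mem_filter, mem_range, Nat.lt_succ_iff]

theorem deg_psh {k k' : ℕ} {f : ℕ → ℕ} (hf : BMap k k' f) (a : ℕ → ℕ) :
    deg k' (psh k f a) = deg k a := by
  unfold deg psh
  rw [sum_comm]
  apply sum_congr rfl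
  intro i hi
  have hi' : i ≤ k := Nat.lt_succ_iff.mp (mem_range.mp hi)
  rw [sum_ite_eq]
  rw [if_pos (mem_range.mpr (Nat.lt_succ_iff.mpr (hf.le i hi')))]

theorem sp_psh {k k' : ℕ} {f : ℕ → ℕ} (hf : BMap k k' f) (a : ℕ → ℕ) :
    sp k' (psh k f a) = (sp k a).image f := by
  ext j
  rw [mem_sp, mem_image]
  constructor
  · rintro ⟨_, h2⟩
    unfold psh at h2
    obtain ⟨i, hi, hne⟩ := exists_ne_zero_of_sum_ne_zero h2
    have hi' : i ≤ k := Nat.lt_succ_iff.mp (mem_range.mp hi)
    by_cases hij : f i = j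
    · rw [if_pos hij] at hne
      exact ⟨i, mem_sp.mpr ⟨hi', hne⟩, hij⟩
    · rw [if_neg hij] at hne
      exact absurd rfl hne
  · rintro ⟨i, hi, hij⟩
    obtain ⟨hi', hne⟩ := mem_sp.mp hi
    refine ⟨hij ▸ hf.le i hi', ?_⟩
    unfold psh
    intro h0
    have h1 := (sum_eq_zero_iff.mp h0) i (mem_range.mpr (Nat.lt_succ_iff.mpr hi'))
    rw [if_pos hij] at h1
    exact hne h1

theorem sp_nonempty {k : ℕ} {a : ℕ → ℕ} (h : 1 ≤ deg k a) : (sp k a).Nonempty := by
  have h1 : deg k a ≠ 0 := by omega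
  unfold deg at h1
  obtain ⟨i, hi, hne⟩ := exists_ne_zero_of_sum_ne_zero h1
  exact ⟨i, mem_sp.mpr ⟨Nat.lt_succ_iff.mp (mem_range.mp hi), hne⟩⟩

theorem deg_sg {k i c : ℕ} (hi : i ≤ k) : deg k (sg i c) = c := by
  unfold deg sg
  rw [sum_ite_eq', if_pos (mem_range.mpr (Nat.lt_succ_iff.mpr hi))]

/-- one occurrence at `p`, the others at `l` -/
def e2 (p l d : ℕ) : ℕ → ℕ := fun j => sg p 1 j + sg l (d - 1) j

theorem deg_e2 {k p l d : ℕ} (hp : p ≤ k) (hl : l ≤ k) (hd : 2 ≤ d) : deg k (e2 p l d) = d := by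
  have h1 : deg k (e2 p l d) = deg k (sg p 1) + deg k (sg l (d - 1)) := by
    unfold deg e2
    rw [sum_add_distrib]
  rw [h1, deg_sg hp, deg_sg hl]
  omega

theorem sp_sg {k i c : ℕ} (hi : i ≤ k) (hc : 1 ≤ c) : sp k (sg i c) = {i} := by
  ext j
  rw [mem_sp, mem_singleton]
  unfold sg
  constructor
  · rintro ⟨_, h⟩
    by_contra hne
    rw [if_neg hne] at h
    exact h rfl
  · rintro rfl
    refine ⟨hi, ?_⟩
    rw [if_pos rfl]
    omega

theorem sp_e2 {k p l d : ℕ} (hp : p ≤ k) (hl : l ≤ k) (hd : 2 ≤ d) : sp k (e2 p l d) = {p, l} := by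
  ext j
  rw [mem_sp, mem_insert, mem_singleton]
  unfold e2 sg
  constructor
  · rintro ⟨_, h⟩
    by_contra hne
    push Not at hne
    rw [if_neg hne.1, if_neg hne.2] at h
    exact h rfl
  · rintro (rfl | rfl)
    · refine ⟨hp, ?_⟩
      rw [if_pos rfl]
      omega
    · refine ⟨hl, ?_⟩
      rw [if_pos (rfl : j = j)]
      omega

theorem two_ends {s : Finset ℕ} (hs : s.Nonempty) (hc : s.card ≤ 2) : s = {s.min' hs, s.max' hs} := by
  symm
  by_cases h : s.min' hs = s.max' hs
  · ext x
    rw [mem_insert, mem_singleton]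
    constructor
    · rintro (rfl | rfl)
      · exact min'_mem _ _
      · exact max'_mem _ _
    · intro hx
      left
      have h1 := min'_le s x hx
      have h2 := le_max' s x hx
      omega
  · apply eq_of_subset_of_card_le
    · intro x hx
      rw [mem_insert, mem_singleton] at hx
      rcases hx with rfl | rfl
      · exact min'_mem _ _
      · exact max'_mem _ _
    · rw [card_pair h]
      exact hc

theorem min_eq {s : Finset ℕ} (hs : s.Nonempty) : s.min = ((s.min' hs : ℕ) : WithTop ℕ) :=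
  (coe_min' hs).symm

theorem max_eq {s : Finset ℕ} (hs : s.Nonempty) : s.max = ((s.max' hs : ℕ) : WithBot ℕ) :=
  (coe_max' hs).symm

/-- relation of two supports on the blocks `0..k` -/
def W (U : FC) (d k : ℕ) (s s' : Finset ℕ) : Prop :=
  ∃ z w, deg k z = d ∧ deg k w = d ∧ sp k z = s ∧ sp k w = s' ∧ U.R k z w

section

variable {U : FC} {d : ℕ}

theorem W.symm {k : ℕ} {s s' : Finset ℕ} (h : W U d k s s') : W U d k s' s := by
  obtain ⟨z, w, h1, h2, h3, h4, h5⟩ := h
  exact ⟨w, z, h2, h1, h4, h3, U.symm h5⟩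

theorem W.push {k k' : ℕ} {s s' : Finset ℕ} (h : W U d k s s') {f : ℕ → ℕ} (hf : BMap k k' f) :
    W U d k' (s.image f) (s'.image f) := by
  obtain ⟨z, w, h1, h2, h3, h4, h5⟩ := h
  refine ⟨psh k f z, psh k f w, ?_, ?_, ?_, ?_, U.push k' f hf h5⟩
  · rw [deg_psh hf, h1]
  · rw [deg_psh hf, h2]
  · rw [sp_psh hf, h3]
  · rw [sp_psh hf, h4]

variable (OAA : OaaStmt) (hO : O1 U ∨ d = 2)

include OAA hO

theorem rel_of_sp {k : ℕ} {x y : ℕ → ℕ} (hx : deg k x = d) (hy : deg k y = d)
    (h : sp k x = sp k y) : U.R k x y := by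
  refine OAA U k x y ?_ (hx.trans hy.symm) h
  rcases hO with h | h
  · exact Or.inl h
  · exact Or.inr (hx.trans h)

theorem W.rel {k : ℕ} {s s' : Finset ℕ} (h : W U d k s s') {x y : ℕ → ℕ} (hx : deg k x = d)
    (hy : deg k y = d) (hxs : sp k x = s) (hys : sp k y = s') : U.R k x y := by
  obtain ⟨z, w, h1, h2, h3, h4, h5⟩ := h
  exact U.trans (rel_of_sp OAA hO hx h1 (hxs.trans h3.symm))
    (U.trans h5 (rel_of_sp OAA hO h2 hy (h4.trans hys.symm)))

theorem W.trans {k : ℕ} {s s' s'' : Finset ℕ} (h : W U d k s s') (h' : W U d k s' s'') :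
    W U d k s s'' := by
  obtain ⟨z, w, h1, h2, h3, h4, h5⟩ := h
  obtain ⟨z', w', h1', h2', h3', h4', h5'⟩ := h'
  exact ⟨z, w', h1, h2', h3, h4',
    U.trans h5 (U.trans (rel_of_sp OAA hO h2 h1' (h4.trans h3'.symm)) h5')⟩

/-- from `{0,1} ~ {1}` -/
theorem bp_of_B (hd : 2 ≤ d) (hB : W U d 1 {0, 1} {1}) : BP U d := by
  have key : ∀ (k : ℕ) (x : ℕ → ℕ) (l : ℕ), deg k x = d → (sp k x).card ≤ 2 →
      (sp k x).max = (l : WithBot ℕ) → U.R k x (sg l d) := by
    intro k x l hx hc hl
    have hne : (sp k x).Nonempty := sp_nonempty (by omega)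
    have h1 := two_ends hne hc
    have h2 : (sp k x).max' hne = l := by
      rw [max_eq hne] at hl
      exact_mod_cast hl
    rw [h2] at h1
    have hlk : l ≤ k := by
      rw [← h2]
      exact (mem_sp.mp (max'_mem _ hne)).1
    set p := (sp k x).min' hne with hp
    have hpl : p ≤ l := by
      rw [← h2]
      exact min'_le_max' _ hne
    by_cases hpe : p = l
    · apply rel_of_sp OAA hO hx (deg_sg hlk)
      rw [sp_sg hlk (by omega), h1, hpe]
      simp
    · have hf : BMap 1 k (fun i => if i = 0 then p else l) := by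
        constructor
        · intro i j hij hj
          split_ifs <;> omega
        · intro i hi
          split_ifs <;> omega
      have h3 := hB.push hf
      refine h3.rel OAA hO hx (deg_sg hlk) ?_ ?_
      · rw [h1]
        ext j
        simp
      · rw [sp_sg hlk (by omega)]
        ext j
        simp
  intro k x y hx hy hcx hcy hmax
  have hne : (sp k x).Nonempty := sp_nonempty (by omega)
  have h1 := max_eq hne
  exact U.trans (key k x _ hx hcx h1) (U.symm (key k y _ hy hcy (by rw [← hmax]; exact h1)))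

/-- from `{0,1} ~ {0}` -/
theorem ap_of_A (hd : 2 ≤ d) (hA : W U d 1 {0, 1} {0}) : AP U d := by
  have key : ∀ (k : ℕ) (x : ℕ → ℕ) (l : ℕ), deg k x = d → (sp k x).card ≤ 2 →
      (sp k x).min = (l : WithTop ℕ) → U.R k x (sg l d) := by
    intro k x l hx hc hl
    have hne : (sp k x).Nonempty := sp_nonempty (by omega)
    have h1 := two_ends hne hc
    have h2 : (sp k x).min' hne = l := by
      rw [min_eq hne] at hl
      exact_mod_cast hl
    rw [h2] at h1
    have hlk : l ≤ k := by
      rw [← h2]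
      exact (mem_sp.mp (min'_mem _ hne)).1
    have hpk : (sp k x).max' hne ≤ k := (mem_sp.mp (max'_mem _ hne)).1
    set p := (sp k x).max' hne with hp
    have hpl : l ≤ p := by
      rw [← h2]
      exact min'_le_max' _ hne
    by_cases hpe : p = l
    · apply rel_of_sp OAA hO hx (deg_sg hlk)
      rw [sp_sg hlk (by omega), h1, hpe]
      simp
    · have hf : BMap 1 k (fun i => if i = 0 then l else p) := by
        constructor
        · intro i j hij hj
          split_ifs <;> omega
        · intro i hi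
          split_ifs <;> omega
      have h3 := hA.push hf
      refine h3.rel OAA hO hx (deg_sg hlk) ?_ ?_
      · rw [h1]
        ext j
        simp
      · rw [sp_sg hlk (by omega)]
        ext j
        simp
  intro k x y hx hy hcx hcy hmin
  have hne : (sp k x).Nonempty := sp_nonempty (by omega)
  have h1 := min_eq hne
  exact U.trans (key k x _ hx hcx h1) (U.symm (key k y _ hy hcy (by rw [← hmin]; exact h1)))

/-- from `{0} ~ {1}` -/
theorem cp_of_C (hd : 2 ≤ d) (hC : W U d 1 {0} {1}) : CP U d := by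
  have key : ∀ (k p l : ℕ), p ≤ l → l ≤ k → ∀ x y, deg k x = d → deg k y = d →
      sp k x = {p} → sp k y = {l} → U.R k x y := by
    intro k p l hpl hlk x y hx hy hxp hyl
    have hf : BMap 1 k (fun i => if i = 0 then p else l) := by
      constructor
      · intro i j hij hj
        split_ifs <;> omega
      · intro i hi
        split_ifs <;> omega
    have h3 := hC.push hf
    refine h3.rel OAA hO hx hy ?_ ?_
    · rw [hxp]
      ext j
      simp
    · rw [hyl]
      ext j
      simp
  intro k x y hx hy hcx hcy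
  obtain ⟨p, hp⟩ := card_eq_one.mp hcx
  obtain ⟨l, hl⟩ := card_eq_one.mp hcy
  have hpk : p ≤ k := (mem_sp.mp (hp ▸ mem_singleton_self p : p ∈ sp k x)).1
  have hlk : l ≤ k := (mem_sp.mp (hl ▸ mem_singleton_self l : l ∈ sp k y)).1
  rcases le_total p l with h | h
  · exact key k p l h hlk x y hx hy hp hl
  · exact U.symm (key k l p h hpk y x hy hx hl hp)

end

/-- the cut -/
def ct (t : ℕ) : ℕ → ℕ := fun j => if j < t then 0 else 1

theorem bmap_ct (k t : ℕ) : BMap k 1 (ct t) := by
  constructor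
  · intro i j hij _
    unfold ct
    split_ifs <;> omega
  · intro i _
    unfold ct
    split_ifs <;> omega

theorem img_ct0 {s : Finset ℕ} {t : ℕ} (hs : s.Nonempty) (h : ∀ j ∈ s, j < t) :
    s.image (ct t) = {0} := by
  ext j
  rw [mem_image, mem_singleton]
  constructor
  · rintro ⟨i, hi, rfl⟩
    unfold ct
    rw [if_pos (h i hi)]
  · rintro rfl
    obtain ⟨i, hi⟩ := hs
    exact ⟨i, hi, by unfold ct; rw [if_pos (h i hi)]⟩

theorem img_ct1 {s : Finset ℕ} {t : ℕ} (hs : s.Nonempty) (h : ∀ j ∈ s, t ≤ j) :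
    s.image (ct t) = {1} := by
  ext j
  rw [mem_image, mem_singleton]
  constructor
  · rintro ⟨i, hi, rfl⟩
    unfold ct
    rw [if_neg (by have := h i hi; omega)]
  · rintro rfl
    obtain ⟨i, hi⟩ := hs
    exact ⟨i, hi, by unfold ct; rw [if_neg (by have := h i hi; omega)]⟩

theorem img_ct01 {s : Finset ℕ} {t i j : ℕ} (hi : i ∈ s) (hj : j ∈ s) (hit : i < t) (hjt : t ≤ j) :
    s.image (ct t) = {0, 1} := by
  ext m
  rw [mem_image, mem_insert, mem_singleton]
  constructor
  · rintro ⟨r, _, rfl⟩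
    unfold ct
    split_ifs
    · left; rfl
    · right; rfl
  · rintro (rfl | rfl)
    · exact ⟨i, hi, by unfold ct; rw [if_pos hit]⟩
    · exact ⟨j, hj, by unfold ct; rw [if_neg (by omega)]⟩

theorem exists_gt_min {s : Finset ℕ} (hs : s.Nonempty) (hc : 2 ≤ s.card) :
    ∃ j ∈ s, s.min' hs < j := by
  have h1 : s.min' hs < s.max' hs := min'_lt_max'_of_card s (by omega)
  exact ⟨_, max'_mem s hs, h1⟩

theorem exists_lt_max {s : Finset ℕ} (hs : s.Nonempty) (hc : 2 ≤ s.card) :
    ∃ j ∈ s, j < s.max' hs := by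
  have h1 : s.min' hs < s.max' hs := min'_lt_max'_of_card s (by omega)
  exact ⟨_, min'_mem s hs, h1⟩

section

variable {U : FC} {d : ℕ} (OAA : OaaStmt) (hO : O1 U ∨ d = 2)

include OAA hO

/-- different minima -/
theorem B_of_min {s s' : Finset ℕ} (hs : s.Nonempty) (hs' : s'.Nonempty)
    (hG : ∀ t, W U d 1 (s.image (ct t)) (s'.image (ct t))) (h : s.min' hs < s'.min' hs')
    (hc : ¬ (s.card = 1 ∧ s'.card = 1)) : W U d 1 {0, 1} {1} := by
  set p := s.min' hs with hp
  set q := s'.min' hs' with hq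
  have hps : p ∈ s := min'_mem s hs
  have hqs : q ∈ s' := min'_mem s' hs'
  have hple : ∀ j ∈ s, p ≤ j := fun j hj => min'_le s j hj
  have hqle : ∀ j ∈ s', q ≤ j := fun j hj => min'_le s' j hj
  have h1 := hG (p + 1)
  have e1 : s'.image (ct (p + 1)) = {1} := img_ct1 hs' (fun j hj => by have := hqle j hj; omega)
  rw [e1] at h1
  by_cases hc2 : 2 ≤ s.card
  · obtain ⟨j, hj, hpj⟩ := exists_gt_min hs hc2
    rw [img_ct01 hps hj (by omega) (by omega)] at h1
    exact h1
  · have hc1 : s.card = 1 := by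
      have := card_pos.mpr hs
      omega
    obtain ⟨p', hp'⟩ := card_eq_one.mp hc1
    have hall : ∀ j ∈ s, j = p := by
      intro j hj
      rw [hp', mem_singleton] at hj hps
      rw [hj, hps]
    have hc3 : 2 ≤ s'.card := by
      have := card_pos.mpr hs'
      by_contra hcon
      exact hc ⟨hc1, by omega⟩
    rw [img_ct0 hs (fun j hj => by rw [hall j hj]; omega)] at h1
    have h2 := hG (q + 1)
    obtain ⟨j, hj, hqj⟩ := exists_gt_min hs' hc3
    rw [img_ct0 hs (fun j hj => by rw [hall j hj]; omega),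
      img_ct01 hqs hj (by omega) (by omega)] at h2
    exact W.trans OAA hO h2.symm h1

/-- different maxima -/
theorem A_of_max {s s' : Finset ℕ} (hs : s.Nonempty) (hs' : s'.Nonempty)
    (hG : ∀ t, W U d 1 (s.image (ct t)) (s'.image (ct t))) (h : s.max' hs < s'.max' hs')
    (hc : ¬ (s.card = 1 ∧ s'.card = 1)) : W U d 1 {0, 1} {0} := by
  set l := s.max' hs with hl
  set l' := s'.max' hs' with hl'
  have hls : l ∈ s := max'_mem s hs
  have hls' : l' ∈ s' := max'_mem s' hs'
  have hlle : ∀ j ∈ s, j ≤ l := fun j hj => le_max' s j hj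
  have hlle' : ∀ j ∈ s', j ≤ l' := fun j hj => le_max' s' j hj
  have h1 := hG l'
  have e1 : s.image (ct l') = {0} := img_ct0 hs (fun j hj => by have := hlle j hj; omega)
  rw [e1] at h1
  by_cases hc2 : 2 ≤ s'.card
  · obtain ⟨j, hj, hpj⟩ := exists_lt_max hs' hc2
    rw [img_ct01 hj hls' (by omega) le_rfl] at h1
    exact h1.symm
  · have hc1 : s'.card = 1 := by
      have := card_pos.mpr hs'
      omega
    obtain ⟨p', hp'⟩ := card_eq_one.mp hc1
    have hall : ∀ j ∈ s', j = l' := by
      intro j hj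
      rw [hp', mem_singleton] at hj hls'
      rw [hj, hls']
    have hc3 : 2 ≤ s.card := by
      have := card_pos.mpr hs
      by_contra hcon
      exact hc ⟨by omega, hc1⟩
    rw [img_ct1 hs' (fun j hj => by rw [hall j hj])] at h1
    have h2 := hG l
    obtain ⟨j, hj, hqj⟩ := exists_lt_max hs hc3
    rw [img_ct1 hs' (fun j hj => by rw [hall j hj]; omega),
      img_ct01 hj hls (by omega) le_rfl] at h2
    exact W.trans OAA hO h2 h1.symm

omit OAA hO in
/-- two points -/
theorem C_of_lt {p q : ℕ} (hG : ∀ t, W U d 1 (({p} : Finset ℕ).image (ct t)) (({q} : Finset ℕ).image (ct t)))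
    (h : p < q) : W U d 1 {0} {1} := by
  have h1 := hG q
  rw [img_ct0 (singleton_nonempty p) (fun j hj => by rw [mem_singleton.mp hj]; exact h),
    img_ct1 (singleton_nonempty q) (fun j hj => by rw [mem_singleton.mp hj])] at h1
  exact h1

end

theorem ip_mono {R : FC} {m m' d : ℕ} (h : IP R m d) (hm : m' ≤ m) : IP R m' d :=
  fun k a b ha hb hca hcb h1 h2 => h k a b ha hb (hca.trans hm) (hcb.trans hm) h1 h2

theorem stp_symm {R S : FC} {k : ℕ} {a b : ℕ → ℕ} (h : Stp R S k a b) : Stp R S k b a := by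
  refine ⟨h.1.symm, ?_⟩
  rcases h.2 with h | h
  · exact Or.inl (R.symm h)
  · exact Or.inr (S.symm h)

theorem chain_deg {R S : FC} {k : ℕ} {a b : ℕ → ℕ} (h : Relation.ReflTransGen (Stp R S k) a b) :
    deg k a = deg k b := by
  induction h with
  | refl => rfl
  | tail _ h ih => exact ih.trans h.1

theorem chain_symm {R S : FC} {k : ℕ} {a b : ℕ → ℕ}
    (h : Relation.ReflTransGen (Stp R S k) a b) : Relation.ReflTransGen (Stp R S k) b a := by
  induction h with
  | refl => exact Relation.ReflTransGen.refl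
  | tail _ h ih => exact Relation.ReflTransGen.head (stp_symm h) ih

theorem first_step {R S : FC} {k : ℕ} {a b : ℕ → ℕ} (h : Relation.ReflTransGen (Stp R S k) a b)
    (hne : sp k b ≠ sp k a) : ∃ z z', deg k z = deg k a ∧ Stp R S k z z' ∧ sp k z = sp k a ∧
      sp k z' ≠ sp k a := by
  induction h with
  | refl => exact absurd rfl hne
  | tail hc hs ih =>
    rename_i y w
    by_cases hy : sp k y = sp k a
    · exact ⟨y, w, (chain_deg hc).symm, hs, hy, hne⟩
    · exact ih hy

/-- the statement of the row -/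
theorem lwa (TRI : TriStmt) (OAA : OaaStmt) (OAR : OarStmt) : LwaStmt := by
  intro R S T U hRT hRU hSTU k a a' hO hd hdeg hT hchain
  set d := deg k a with hdd
  have oR : O1 R ∨ d = 2 := hO.imp_left fun h => h.1
  have oS : O1 S ∨ d = 2 := hO.imp_left fun h => h.2.1
  have oT : O1 T ∨ d = 2 := hO.imp_left fun h => h.2.2.1
  have oU : O1 U ∨ d = 2 := hO.imp_left fun h => h.2.2.2
  by_cases hsp : sp k a = sp k a'
  · exact rel_of_sp OAA oU hdd.symm hdeg.symm hsp
  -- (I)
  have stepI : ∀ x x' : ℕ → ℕ, deg k x = d → deg k x' = d → sp k x ≠ sp k x' → T.R k x x' →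
      Relation.ReflTransGen (Stp R S k) x x' → IP U (sp k x).card d := by
    intro x x' hx hx' hne hT' hch
    obtain ⟨z, z', hz, hst, hzs, hzs'⟩ := first_step hch (Ne.symm hne)
    have hzd : deg k z = d := hz.trans hx
    have hzd' : deg k z' = d := hst.1.symm.trans hzd
    have hTip : IP T (sp k x).card d := by
      have h1 := (OAR T k x x' (by rw [hx]; exact oT) (by rw [hx]; exact hd)
        (hx.trans hx'.symm) hT' hne).1
      rw [hx] at h1
      exact ip_mono h1 (le_max_left _ _)
    have hzne : sp k z ≠ sp k z' := by rw [hzs]; exact Ne.symm hzs'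
    rcases hst.2 with h | h
    · have h1 := (OAR R k z z' (by rw [hzd]; exact oR) (by rw [hzd]; exact hd)
        hst.1 h hzne).1
      rw [hzd, hzs] at h1
      have h2 := ip_mono h1 (le_max_left (sp k x).card _)
      intro k0 u v hu hv hcu hcv h3 h4
      exact hRU k0 u v (h2 k0 u v hu hv hcu hcv h3 h4)
    · have h1 := (OAR S k z z' (by rw [hzd]; exact oS) (by rw [hzd]; exact hd)
        hst.1 h hzne).1
      rw [hzd, hzs] at h1
      have h2 := ip_mono h1 (le_max_left (sp k x).card _)
      intro k0 u v hu hv hcu hcv h3 h4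
      exact hSTU k0 u v (h2 k0 u v hu hv hcu hcv h3 h4) (hTip k0 u v hu hv hcu hcv h3 h4)
  have hchain' : Relation.ReflTransGen (Stp R S k) a' a := chain_symm hchain
  have hIP : IP U (max (sp k a).card (sp k a').card) d := by
    rcases le_total (sp k a').card (sp k a).card with h | h
    · rw [max_eq_left h]
      exact stepI a a' hdd.symm hdeg.symm hsp hT hchain
    · rw [max_eq_right h]
      exact stepI a' a hdeg.symm hdd.symm (Ne.symm hsp) (T.symm hT) hchain'
  -- (II)
  have hG : ∀ t, W U d 1 ((sp k a).image (ct t)) ((sp k a').image (ct t)) := by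
    intro t
    have hf := bmap_ct k t
    set f := ct t with hfdef
    let X : Type := {v : ℕ → ℕ // deg 1 v = d}
    let cl : X → Fin 3 := fun v => if v.1 1 = 0 then 0 else if v.1 0 = 0 then 1 else 2
    have hcl : ∀ x y : X, cl x = cl y → sp 1 x.1 = sp 1 y.1 := by
      intro x y hxy
      have hx := x.2
      have hy := y.2
      have hx1 : x.1 0 + x.1 1 = d := by
        have : deg 1 x.1 = x.1 0 + x.1 1 := by simp [deg, sum_range_succ]
        exact this.symm.trans hx
      have hy1 : y.1 0 + y.1 1 = d := by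
        have : deg 1 y.1 = y.1 0 + y.1 1 := by simp [deg, sum_range_succ]
        exact this.symm.trans hy
      have hiff : (x.1 0 = 0 ↔ y.1 0 = 0) ∧ (x.1 1 = 0 ↔ y.1 1 = 0) := by
        simp only [cl] at hxy
        split_ifs at hxy with h1 h2 h3 h4 h5 h6 h7 h8 <;>
          first
            | exact absurd hxy (by decide)
            | (constructor <;> constructor <;> intro h <;> omega)
      ext j
      rw [mem_sp, mem_sp]
      constructor
      · rintro ⟨h1, h2⟩
        refine ⟨h1, ?_⟩
        have : j = 0 ∨ j = 1 := by omega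
        rcases this with rfl | rfl
        · exact fun h => h2 (hiff.1.mpr h)
        · exact fun h => h2 (hiff.2.mpr h)
      · rintro ⟨h1, h2⟩
        refine ⟨h1, ?_⟩
        have : j = 0 ∨ j = 1 := by omega
        rcases this with rfl | rfl
        · exact fun h => h2 (hiff.1.mp h)
        · exact fun h => h2 (hiff.2.mp h)
    have heq : ∀ V : FC, Equivalence (fun x y : X => V.R 1 x.1 y.1) := fun V =>
      ⟨fun x => V.refl 1 x.1, fun h => V.symm h, fun h h' => V.trans h h'⟩
    have hda : deg 1 (psh k f a) = d := by rw [deg_psh hf]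
    have hlift : ∀ z, Relation.ReflTransGen (Stp R S k) a z →
        ∃ hz : deg 1 (psh k f z) = d, Relation.ReflTransGen
          (fun x y : X => R.R 1 x.1 y.1 ∨ S.R 1 x.1 y.1) ⟨psh k f a, hda⟩ ⟨psh k f z, hz⟩ := by
      intro z hz
      induction hz with
      | refl => exact ⟨hda, Relation.ReflTransGen.refl⟩
      | tail hc hs ih =>
        obtain ⟨h1, h2⟩ := ih
        have h3 := chain_deg (hc.tail hs)
        refine ⟨by rw [deg_psh hf, ← h3], h2.tail ?_⟩
        rcases hs.2 with h | h
        · exact Or.inl (R.push 1 f hf h)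
        · exact Or.inr (S.push 1 f hf h)
    obtain ⟨hda', hch⟩ := hlift a' hchain
    have hmain := TRI X (fun x y => R.R 1 x.1 y.1) (fun x y => S.R 1 x.1 y.1)
      (fun x y => T.R 1 x.1 y.1) (fun x y => U.R 1 x.1 y.1) cl (heq R) (heq S) (heq T) (heq U)
      (fun x y hxy => ⟨rel_of_sp OAA oR x.2 y.2 (hcl x y hxy), rel_of_sp OAA oS x.2 y.2 (hcl x y hxy),
        rel_of_sp OAA oT x.2 y.2 (hcl x y hxy), rel_of_sp OAA oU x.2 y.2 (hcl x y hxy)⟩)
      (fun x y h => hRT 1 x.1 y.1 h) (fun x y h => hRU 1 x.1 y.1 h)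
      (fun x y h h' => hSTU 1 x.1 y.1 h h') ⟨psh k f a, hda⟩ ⟨psh k f a', hda'⟩
      (T.push 1 f hf hT) hch
    exact ⟨psh k f a, psh k f a', hda, hda', sp_psh hf a, sp_psh hf a', hmain⟩
  have hG' : ∀ t, W U d 1 ((sp k a').image (ct t)) ((sp k a).image (ct t)) := fun t => (hG t).symm
  have hne : (sp k a).Nonempty := sp_nonempty (by omega)
  have hne' : (sp k a').Nonempty := sp_nonempty (by omega)
  -- both of size one
  by_cases hc1 : (sp k a).card = 1 ∧ (sp k a').card = 1
  · obtain ⟨p, hp⟩ := card_eq_one.mp hc1.1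
    obtain ⟨q, hq⟩ := card_eq_one.mp hc1.2
    have hpq : p ≠ q := by
      rintro rfl
      exact hsp (hp.trans hq.symm)
    have hC : W U d 1 {0} {1} := by
      rcases lt_or_gt_of_ne hpq with h | h
      · rw [hp, hq] at hG
        exact C_of_lt hG h
      · rw [hp, hq] at hG'
        exact C_of_lt hG' h
    exact cp_of_C OAA oU hd hC k a a' hdd.symm hdeg.symm hc1.1 hc1.2
  have hc1' : ¬ ((sp k a').card = 1 ∧ (sp k a).card = 1) := fun h => hc1 ⟨h.2, h.1⟩
  -- the vectors on the ends
  have ends : ∀ x : ℕ → ℕ, deg k x = d → ∀ hx : (sp k x).Nonempty,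
      (sp k x).card ≤ max (sp k a).card (sp k a').card →
      U.R k x (e2 ((sp k x).min' hx) ((sp k x).max' hx) d) := by
    intro x hxd hx hcx
    have hpk := (mem_sp.mp (min'_mem _ hx)).1
    have hlk := (mem_sp.mp (max'_mem _ hx)).1
    have hsub : sp k (e2 ((sp k x).min' hx) ((sp k x).max' hx) d) ⊆ sp k x := by
      rw [sp_e2 hpk hlk hd]
      intro j hj
      rw [mem_insert, mem_singleton] at hj
      rcases hj with rfl | rfl
      · exact min'_mem _ hx
      · exact max'_mem _ hx
    have hne2 : (sp k (e2 ((sp k x).min' hx) ((sp k x).max' hx) d)).Nonempty :=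
      sp_nonempty (by rw [deg_e2 hpk hlk hd]; omega)
    have hmem1 : (sp k x).min' hx ∈ sp k (e2 ((sp k x).min' hx) ((sp k x).max' hx) d) := by
      rw [sp_e2 hpk hlk hd]; exact mem_insert_self _ _
    have hmem2 : (sp k x).max' hx ∈ sp k (e2 ((sp k x).min' hx) ((sp k x).max' hx) d) := by
      rw [sp_e2 hpk hlk hd]; exact mem_insert_of_mem (mem_singleton_self _)
    refine hIP k x _ hxd (deg_e2 hpk hlk hd) hcx ((card_le_card hsub).trans hcx) ?_ ?_
    · rw [min_eq hx, min_eq hne2]
      congr 1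
      apply le_antisymm
      · exact min'_le _ _ (hsub (min'_mem _ hne2))
      · exact min'_le _ _ hmem1
    · rw [max_eq hx, max_eq hne2]
      congr 1
      apply le_antisymm
      · exact le_max' _ _ hmem2
      · exact le_max' _ _ (hsub (max'_mem _ hne2))
  have ha1 := ends a hdd.symm hne (le_max_left _ _)
  have ha1' := ends a' hdeg.symm hne' (le_max_right _ _)
  set p := (sp k a).min' hne with hp
  set l := (sp k a).max' hne with hl
  set p' := (sp k a').min' hne' with hp'
  set l' := (sp k a').max' hne' with hl'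
  have hpk : p ≤ k := (mem_sp.mp (min'_mem _ hne)).1
  have hlk : l ≤ k := (mem_sp.mp (max'_mem _ hne)).1
  have hpk' : p' ≤ k := (mem_sp.mp (min'_mem _ hne')).1
  have hlk' : l' ≤ k := (mem_sp.mp (max'_mem _ hne')).1
  have hpl : p ≤ l := min'_le_max' _ hne
  have hpl' : p' ≤ l' := min'_le_max' _ hne'
  have hBP : p ≠ p' → BP U d := by
    intro h
    apply bp_of_B OAA oU hd
    rcases lt_or_gt_of_ne h with h | h
    · exact B_of_min OAA oU hne hne' hG h hc1
    · exact B_of_min OAA oU hne' hne hG' h hc1'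
  have hAP : l ≠ l' → AP U d := by
    intro h
    apply ap_of_A OAA oU hd
    rcases lt_or_gt_of_ne h with h | h
    · exact A_of_max OAA oU hne hne' hG h hc1
    · exact A_of_max OAA oU hne' hne hG' h hc1'
  have ce : ∀ i j : ℕ, i ≤ k → j ≤ k → (sp k (e2 i j d)).card ≤ 2 := by
    intro i j hi hj
    rw [sp_e2 hi hj hd]
    exact card_le_two
  have mine : ∀ i j : ℕ, i ≤ j → j ≤ k → (sp k (e2 i j d)).min = (i : WithTop ℕ) := by
    intro i j hij hj
    rw [sp_e2 (hij.trans hj) hj hd, min_insert, min_singleton]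
    exact_mod_cast congrArg _ (min_eq_left hij)
  have maxe : ∀ i j : ℕ, i ≤ j → j ≤ k → (sp k (e2 i j d)).max = (j : WithBot ℕ) := by
    intro i j hij hj
    rw [sp_e2 (hij.trans hj) hj hd, max_insert, max_singleton]
    exact_mod_cast congrArg _ (max_eq_right hij)
  have dege : ∀ i j : ℕ, i ≤ k → j ≤ k → deg k (e2 i j d) = d := fun i j hi hj => deg_e2 hi hj hd
  have hee : U.R k (e2 p l d) (e2 p' l' d) := by
    by_cases h1 : p = p'
    · by_cases h2 : l = l'
      · rw [h1, h2]
        exact U.refl k _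
      · refine hAP h2 k _ _ (dege p l hpk hlk) (dege p' l' hpk' hlk') (ce p l hpk hlk)
          (ce p' l' hpk' hlk') ?_
        rw [mine p l hpl hlk, mine p' l' hpl' hlk', h1]
    · by_cases h2 : l = l'
      · refine hBP h1 k _ _ (dege p l hpk hlk) (dege p' l' hpk' hlk') (ce p l hpk hlk)
          (ce p' l' hpk' hlk') ?_
        rw [maxe p l hpl hlk, maxe p' l' hpl' hlk', h2]
      · -- all types with at most two blocks are related
        have bp := hBP h1
        have ap := hAP h2
        have b1 : ∀ i i' j : ℕ, i ≤ j → i' ≤ j → j ≤ k → U.R k (e2 i j d) (e2 i' j d) := by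
          intro i i' j hi hi' hj
          refine bp k _ _ (dege i j (hi.trans hj) hj) (dege i' j (hi'.trans hj) hj)
            (ce i j (hi.trans hj) hj) (ce i' j (hi'.trans hj) hj) ?_
          rw [maxe i j hi hj, maxe i' j hi' hj]
        have b2 : ∀ i j j' : ℕ, i ≤ j → i ≤ j' → j ≤ k → j' ≤ k →
            U.R k (e2 i j d) (e2 i j' d) := by
          intro i j j' hi hi' hj hj'
          refine ap k _ _ (dege i j (hi.trans hj) hj) (dege i j' (hi.trans hj) hj')
            (ce i j (hi.trans hj) hj) (ce i j' (hi.trans hj) hj') ?_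
          rw [mine i j hi hj, mine i j' hi' hj']
        have b3 := b1 p 0 l hpl (Nat.zero_le _) hlk
        have b4 := b2 0 l l' (Nat.zero_le _) (Nat.zero_le _) hlk hlk'
        have b5 := b1 0 p' l' (Nat.zero_le _) hpl' hlk'
        exact U.trans b3 (U.trans b4 b5)
  exact U.trans ha1 (U.trans hee (U.symm ha1'))

end Pool.Agent.MVO.H87
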